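import Mathlib
import Pool.Agent.Y22.PSG

/-!
For every sequence `W` there is a closed infinite-dimensional subspace `V` of the Fréchet space of
smooth functions on `[0,1]`, real or complex, such that for every nonzero `f` in `V` and every point
`x` of `[0,1]` the quotients `‖f⁽ⁿ⁾(x)‖ / W n` are unbounded (so `f` is at no point in the local
class given by the weights `W`, for instance in no Gevrey class), and the Taylor series at `x` has
radius of convergence `0`.
-/

set_option autoImplicit false

open Filter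

namespace Pool.Agent.Results.MP_ffb385_an.PrescribedGrowth

open Pool.Agent.H451R3.PS

theorem result (𝕜 : Type*) [RCLike 𝕜] (W : ℕ → ℝ) :
    ∃ V : Submodule 𝕜 (CInf 𝕜), @IsClosed (CInf 𝕜) (frechet 𝕜) (V : Set (CInf 𝕜)) ∧
      ¬ FiniteDimensional 𝕜 V ∧ ∀ f ∈ V, f ≠ 0 → ∀ x : I,
        rho f x = 0 ∧ ∀ C : ℝ, ∃ᶠ n in atTop, C * W n < ‖deriv' n f x‖ :=
  Pool.Agent.Y22.PSG.main 𝕜 W

end Pool.Agent.Results.MP_ffb385_an.PrescribedGrowth
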